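import Mathlib

/-! An almost isometric operator whose bicommutant is larger than the WOT-closed span of its
resolvents. -/

open scoped InnerProductSpace
open Filter Topology

namespace Pool.Agent.Results.MP_9e58cf_an.Counter

section Defs

variable {E : Type} [NormedAddCommGroup E] [InnerProductSpace ℂ E] [CompleteSpace E]

/-- trace class operators: `A v = ∑ ⟪y n, v⟫ x n` with `∑ ‖x n‖ ‖y n‖ < ∞` -/
def TraceClass (A : E →L[ℂ] E) : Prop :=
  ∃ x y : ℕ → E, Summable (fun n => ‖x n‖ * ‖y n‖) ∧
    ∀ v, HasSum (fun n => ⟪y n, v⟫_ℂ • x n) (A v)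

/-- `I - T* T` -/
noncomputable def defect (T : E →L[ℂ] E) : E →L[ℂ] E := 1 - ContinuousLinearMap.adjoint T * T

/-- almost isometric: `I - T* T` is of trace class -/
def AlmostIsometric (T : E →L[ℂ] E) : Prop := TraceClass (defect T)

/-- `T - z I` -/
noncomputable def shiftBy (T : E →L[ℂ] E) (z : ℂ) : E →L[ℂ] E := T - z • 1

/-- the set of resolvents `(T - z)⁻¹`, `z` outside the spectrum of `T` -/
def resolvents (T : E →L[ℂ] E) : Set (E →L[ℂ] E) :=
  {R | ∃ z : ℂ, z ∉ spectrum ℂ T ∧ R = Ring.inverse (shiftBy T z)}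

/-- the linear span of the resolvents -/
def resolventSpan (T : E →L[ℂ] E) : Set (E →L[ℂ] E) := Submodule.span ℂ (resolvents T)

/-- an operator, viewed in the space of operators with the weak operator topology -/
def toW (S : E →L[ℂ] E) : E →WOT[ℂ] E := ContinuousLinearMapWOT.ofCLM S

/-- closure in the weak operator topology -/
def wotClosure (s : Set (E →L[ℂ] E)) : Set (E →L[ℂ] E) := {S | toW S ∈ closure (toW '' s)}

/-- the bicommutant of `T` -/
def bicommutant (T : E →L[ℂ] E) : Set (E →L[ℂ] E) := Set.centralizer (Set.centralizer {T})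

end Defs

/-- the complex Hilbert space `ℓ²` over the countable index set `Option ℤ` -/
abbrev H : Type := lp (fun _ : Option ℤ => ℂ) 2

noncomputable def b : HilbertBasis (Option ℤ) ℂ H := default

noncomputable def c : Option ℤ → ℝ
  | none => 0
  | some n => (1 / 2) ^ n.natAbs

def p : Option ℤ ≃ Option ℤ := Equiv.optionCongr (Equiv.subRight 1)

lemma c_nonneg (i : Option ℤ) : 0 ≤ c i := by
  cases i <;> simp only [c] <;> positivity

lemma c_summable : Summable c := by
  have h : Summable (fun n : ℤ => ((1 : ℝ) / 2) ^ n.natAbs) := by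
    refine Summable.of_nat_of_neg ?_ ?_ <;> simpa using summable_geometric_two
  have := (Option.some_injective ℤ).summable_iff (f := c) (by
    intro x hx
    cases x with
    | none => rfl
    | some n => exact absurd ⟨n, rfl⟩ hx)
  exact this.1 h

lemma norm_b (i : Option ℤ) : ‖b i‖ = 1 := b.orthonormal.1 i

lemma inner_b (i j : Option ℤ) : ⟪b i, b j⟫_ℂ = if i = j then 1 else 0 :=
  orthonormal_iff_ite.1 b.orthonormal i j

lemma ext_b {u v : H} (h : ∀ i, ⟪b i, u⟫_ℂ = ⟪b i, v⟫_ℂ) : u = v := by
  apply b.repr.injective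
  ext i
  rw [b.repr_apply_apply, b.repr_apply_apply, h]

noncomputable def term (i : Option ℤ) : H →L[ℂ] H :=
  (c i : ℂ) • InnerProductSpace.rankOne ℂ (b i) (b (p i))

lemma term_summable : Summable term := by
  refine Summable.of_norm ?_
  refine c_summable.congr fun i => ?_
  rw [term, norm_smul, InnerProductSpace.norm_rankOne, norm_b, norm_b, Complex.norm_real,
    Real.norm_eq_abs, abs_of_nonneg (c_nonneg i)]; ring

/-- a bilateral weighted shift, extended by zero on one more basis vector -/
noncomputable def K : H →L[ℂ] H := ∑' i, term i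

lemma inner_K (j : Option ℤ) (v : H) : ⟪b j, K v⟫_ℂ = c j * ⟪b (p j), v⟫_ℂ := by
  have h1 := ((innerSL ℂ (b j)).comp (ContinuousLinearMap.apply ℂ H v)).hasSum
    term_summable.hasSum
  have h2 : HasSum (fun i => ((innerSL ℂ (b j)).comp (ContinuousLinearMap.apply ℂ H v)) (term i))
      (c j * ⟪b (p j), v⟫_ℂ) := by
    convert hasSum_single (f := fun i =>
      ((innerSL ℂ (b j)).comp (ContinuousLinearMap.apply ℂ H v)) (term i)) j ?_ using 1
    · simp [term, norm_b]
    · intro i hi
      simp [term, inner_b, hi.symm]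
  exact h1.unique h2

lemma K_b (j : Option ℤ) : K (b (p j)) = (c j : ℂ) • b j := by
  refine ext_b fun i => ?_
  rw [inner_K, inner_smul_right, inner_b, inner_b]
  by_cases h : i = j
  · simp [h]
  · simp [h]

lemma adj_K_b (j : Option ℤ) : ContinuousLinearMap.adjoint K (b j) = (c j : ℂ) • b (p j) := by
  refine ext_inner_right ℂ fun v => ?_
  rw [ContinuousLinearMap.adjoint_inner_left, inner_K, inner_smul_left, Complex.conj_ofReal]

lemma traceClass_of (A : H →L[ℂ] H) (h : Summable fun i => ‖A (b i)‖) : TraceClass A := by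
  let e : ℕ ≃ Option ℤ := (Denumerable.eqv (Option ℤ)).symm
  refine ⟨fun n => A (b (e n)), fun n => b (e n), ?_, fun v => ?_⟩
  · simp_rw [norm_b, mul_one]
    exact e.summable_iff.2 h
  · have h1 := A.hasSum (b.hasSum_repr v)
    simp_rw [map_smul, b.repr_apply_apply] at h1
    exact e.hasSum_iff.2 h1

lemma summable_K : Summable fun i => ‖K (b i)‖ := by
  rw [← p.summable_iff]
  refine c_summable.congr fun i => ?_
  simp only [Function.comp, K_b, norm_smul, norm_b, Complex.norm_real, Real.norm_eq_abs,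
    abs_of_nonneg (c_nonneg i), mul_one]

lemma K_none : K (b none) = 0 := by
  have := K_b none
  simpa [p, c] using this

lemma c_ne (n : ℤ) : (c (some n) : ℂ) ≠ 0 := by
  simp [c]

lemma p_some (n : ℤ) : p (some n) = some (n - 1) := rfl

lemma bicomm (X : H →L[ℂ] H) (hX : ∀ v, K (X v) = X (K v)) (v : H) :
    X (⟪b none, v⟫_ℂ • b none) = ⟪b none, X v⟫_ℂ • b none := by
  set a := ⟪b none, X (b none)⟫_ℂ with ha
  have h1 : X (b none) = a • b none := by
    refine ext_b fun i => ?_
    cases i with
    | none => rw [inner_smul_right, inner_b]; simp [ha]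
    | some n =>
      have h2 := inner_K (some (n + 1)) (X (b none))
      rw [hX, K_none, map_zero, inner_zero_right, p_some, add_sub_cancel_right] at h2
      rw [inner_smul_right, inner_b, (mul_eq_zero.1 h2.symm).resolve_left (c_ne _)]
      simp
  have h3 : ContinuousLinearMap.adjoint X (b none) = (starRingEnd ℂ) a • b none := by
    refine ext_b fun i => ?_
    rw [ContinuousLinearMap.adjoint_inner_right, inner_smul_right, inner_b]
    cases i with
    | none => rw [ha, inner_conj_symm]; simp
    | some n =>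
      have h4 := inner_K none (X (b (p (some n))))
      rw [hX, K_b, map_smul, inner_smul_right] at h4
      simp only [c, Complex.ofReal_zero, zero_mul] at h4
      have h5 := (mul_eq_zero.1 h4).resolve_left (c_ne n)
      rw [← inner_conj_symm, h5]; simp
  rw [map_smul, h1, ← ContinuousLinearMap.adjoint_inner_left, h3, inner_smul_left, smul_smul]
  simp [mul_comm]

lemma resolvent_eq (R : H →L[ℂ] H) (hR : R ∈ resolvents (1 + K)) :
    ⟪b none, R (b none)⟫_ℂ = ⟪b (some 0), R (b (some 0))⟫_ℂ := by
  obtain ⟨z, hz, rfl⟩ := hR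
  rw [show shiftBy (1 + K) z = 1 + K - algebraMap ℂ (H →L[ℂ] H) z from by
    rw [shiftBy, Algebra.algebraMap_eq_smul_one]]
  have hu : IsUnit (1 + K - algebraMap ℂ (H →L[ℂ] H) z) := by
    have := (spectrum.notMem_iff.1 hz).neg
    rwa [neg_sub] at this
  set R := Ring.inverse (1 + K - algebraMap ℂ (H →L[ℂ] H) z) with hRd
  have h1 : ∀ v i, (1 - z) * ⟪b i, R v⟫_ℂ + c i * ⟪b (p i), R v⟫_ℂ = ⟪b i, v⟫_ℂ := by
    intro v i
    have h2 : (1 + K - algebraMap ℂ (H →L[ℂ] H) z) (R v) = v := by
      rw [← mul_apply_eq_comp, hRd, Ring.mul_inverse_cancel _ hu]; rfl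
    have h3 : (1 + K - algebraMap ℂ (H →L[ℂ] H) z) (R v) = R v + K (R v) - z • R v := rfl
    rw [h3] at h2
    rw [← inner_K]
    conv_rhs => rw [← h2]
    rw [inner_sub_right, inner_add_right, inner_smul_right]; ring
  have h4 : (1 - z) * ⟪b none, R (b none)⟫_ℂ = 1 := by
    have := h1 (b none) none
    rw [inner_b] at this
    simpa [c] using this
  have hz1 : 1 - z ≠ 0 := left_ne_zero_of_mul_eq_one h4
  have hd : 0 < ‖1 - z‖ := norm_pos_iff.2 hz1
  set u : ℕ → ℂ := fun k => ⟪b (some (-(k : ℤ) - 1)), R (b (some 0))⟫_ℂ with hu'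
  have h5 : ∀ k, ‖1 - z‖ * ‖u k‖ = (1 / 2) ^ (k + 1) * ‖u (k + 1)‖ := by
    intro k
    have := h1 (b (some 0)) (some (-(k : ℤ) - 1))
    rw [inner_b, if_neg (by simp only [Option.some.injEq]; omega), p_some] at this
    have e1 : -(k : ℤ) - 1 - 1 = -((k + 1 : ℕ) : ℤ) - 1 := by push_cast; ring
    have e2 : (-(k : ℤ) - 1).natAbs = k + 1 := by omega
    rw [e1] at this
    simp only [c, e2] at this
    have h6 := congrArg norm (eq_neg_of_add_eq_zero_left this)
    rw [norm_mul, norm_neg, norm_mul, Complex.norm_real, Real.norm_eq_abs,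
      abs_of_nonneg (by positivity)] at h6
    exact h6
  have hbd : ∀ k, ‖u k‖ ≤ ‖R (b (some 0))‖ := fun k =>
    (norm_inner_le_norm _ _).trans (by rw [norm_b, one_mul])
  obtain ⟨N, hN⟩ := exists_pow_lt_of_lt_one (show 0 < ‖1 - z‖ / 2 by positivity)
    (show (1 / 2 : ℝ) < 1 by norm_num)
  have h7 : ∀ k, N ≤ k → 2 * ‖u k‖ ≤ ‖u (k + 1)‖ := by
    intro k hk
    have h8 : (1 / 2 : ℝ) ^ (k + 1) ≤ (1 / 2) ^ N :=
      pow_le_pow_of_le_one (by norm_num) (by norm_num) (by omega)
    have h9 : ‖1 - z‖ * ‖u k‖ ≤ ‖1 - z‖ / 2 * ‖u (k + 1)‖ := by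
      rw [h5]; exact mul_le_mul_of_nonneg_right (by linarith) (norm_nonneg _)
    nlinarith
  have h10 : ∀ m, 2 ^ m * ‖u N‖ ≤ ‖u (N + m)‖ := by
    intro m
    induction m with
    | zero => simp
    | succ m ih =>
      have := h7 (N + m) (by omega)
      rw [pow_succ, ← add_assoc]; linarith
  have h11 : ‖u N‖ = 0 := by
    by_contra hne
    have hpos : 0 < ‖u N‖ := lt_of_le_of_ne (norm_nonneg _) (Ne.symm hne)
    obtain ⟨m, hm⟩ := pow_unbounded_of_one_lt (‖R (b (some 0))‖ / ‖u N‖) (show (1 : ℝ) < 2 by norm_num)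
    rw [div_lt_iff₀ hpos] at hm
    linarith [h10 m, hbd (N + m)]
  have h12 : ∀ m k, k + m = N → ‖u k‖ = 0 := by
    intro m
    induction m with
    | zero => intro k hk; rw [show k = N by omega]; exact h11
    | succ m ih =>
      intro k hk
      have := h5 k
      rw [ih (k + 1) (by omega), mul_zero] at this
      exact (mul_eq_zero.1 this).resolve_left hd.ne'
  have h13 : u 0 = 0 := norm_eq_zero.1 (h12 N 0 (by omega))
  have h14 := h1 (b (some 0)) (some 0)
  rw [inner_b, if_pos rfl, p_some] at h14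
  simp only [hu', Nat.cast_zero, neg_zero] at h13
  rw [h13, mul_zero, add_zero] at h14
  exact mul_left_cancel₀ hz1 (h4.trans h14.symm)

lemma main : ∃ T S : H →L[ℂ] H,
    TraceClass (1 - ContinuousLinearMap.adjoint T * T) ∧ TraceClass (T - 1) ∧
    S ∈ Set.centralizer (Set.centralizer {T}) ∧
    (ContinuousLinearMapWOT.ofCLM S : H →WOT[ℂ] H) ∉
      closure (ContinuousLinearMapWOT.ofCLM ''
        (Submodule.span ℂ (resolvents T) : Set (H →L[ℂ] H))) := by
  refine ⟨1 + K, InnerProductSpace.rankOne ℂ (b none) (b none), ?_, ?_, ?_, ?_⟩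
  · refine traceClass_of _ ?_
    refine Summable.of_nonneg_of_le (fun _ => norm_nonneg _) (fun i => ?_)
      (c_summable.add (summable_K.mul_left ‖ContinuousLinearMap.adjoint (1 + K)‖))
    have h1 : (1 - ContinuousLinearMap.adjoint (1 + K) * (1 + K) : H →L[ℂ] H) (b i) =
        -(ContinuousLinearMap.adjoint K (b i) + ContinuousLinearMap.adjoint (1 + K) (K (b i))) := by
      have h2 : ContinuousLinearMap.adjoint (1 + K) (b i) =
          b i + ContinuousLinearMap.adjoint K (b i) := by
        rw [map_add, _root_.add_apply, ContinuousLinearMap.one_def,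
          ContinuousLinearMap.adjoint_id]; rfl
      have h3 : (1 - ContinuousLinearMap.adjoint (1 + K) * (1 + K) : H →L[ℂ] H) (b i) =
          b i - ContinuousLinearMap.adjoint (1 + K) (b i + K (b i)) := rfl
      rw [h3, (ContinuousLinearMap.adjoint (1 + K)).map_add, h2]; abel
    rw [h1, norm_neg]
    refine (norm_add_le _ _).trans (add_le_add ?_ (ContinuousLinearMap.le_opNorm _ _))
    rw [adj_K_b, norm_smul, norm_b, Complex.norm_real, Real.norm_eq_abs,
      abs_of_nonneg (c_nonneg i), mul_one]
  · rw [add_sub_cancel_left]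
    exact traceClass_of _ summable_K
  · intro X hX
    have h1 := hX (1 + K) rfl
    have h2 : K * X = X * K := by
      rw [add_mul, mul_add, one_mul, mul_one] at h1
      exact add_left_cancel h1
    ext1 v
    exact bicomm X (fun v => DFunLike.congr_fun h2 v) v
  · intro h
    have hc : IsClosed {A : H →WOT[ℂ] H |
        innerSL ℂ (b none) (A (b none)) = innerSL ℂ (b (some 0)) (A (b (some 0)))} :=
      isClosed_eq (ContinuousLinearMapWOT.continuous_dual_apply _ _)
        (ContinuousLinearMapWOT.continuous_dual_apply _ _)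
    have h2 := closure_minimal (by
      rintro _ ⟨R, hR, rfl⟩
      change ⟪b none, R (b none)⟫_ℂ = ⟪b (some 0), R (b (some 0))⟫_ℂ
      induction hR using Submodule.span_induction with
      | mem R hR => exact resolvent_eq R hR
      | zero => simp
      | add A B _ _ hA hB =>
        rw [_root_.add_apply, _root_.add_apply, inner_add_right,
          inner_add_right, hA, hB]
      | smul a A _ hA =>
        rw [_root_.smul_apply, _root_.smul_apply, inner_smul_right,
          inner_smul_right, hA]) hc h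
    change ⟪b none, ⟪b none, b none⟫_ℂ • b none⟫_ℂ =
      ⟪b (some 0), ⟪b none, b (some 0)⟫_ℂ • b none⟫_ℂ at h2
    rw [inner_smul_right, inner_smul_right, inner_b, inner_b] at h2
    simp at h2

theorem result : ∃ (E : Type) (_ : NormedAddCommGroup E) (_ : InnerProductSpace ℂ E)
    (_ : CompleteSpace E) (T S : E →L[ℂ] E),
    AlmostIsometric T ∧ S ∈ bicommutant T ∧ S ∉ wotClosure (resolventSpan T) := by
  obtain ⟨T, S, h1, -, h3, h4⟩ := main
  exact ⟨H, inferInstance, inferInstance, inferInstance, T, S, h1, h3, h4⟩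

end Pool.Agent.Results.MP_9e58cf_an.Counter
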